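import Mathlib
import Pool.Agent.N205.SE.Base

/-!
# Strata of Weil polynomials and independence: definitions
-/

set_option autoImplicit false

namespace Pool.Agent.N205.SG

open Polynomial Pool.Agent.N205.SE

/-- The polynomials `f` of degree `2 g` with integral coefficients, leading coefficient one and
constant term `q ^ g`, all of whose complex roots have absolute value `√q`. -/
def weilPolys (q g : ℕ) : Set ℤ[X] :=
  {f | f.Monic ∧ f.natDegree = 2 * g ∧ f.coeff 0 = (q : ℤ) ^ g ∧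
    ∀ z : ℂ, aeval z f = 0 → ‖z‖ ^ 2 = q}

/-- Valuations `m j` of the coefficients, with the set `T` of the indices for which they are exact. -/
structure IsData (a g : ℕ) (m : ℕ → ℕ) (T : ℕ → Prop) : Prop where
  zero : m 0 = 0
  step : ∀ j i, 0 < i → 2 * i ≤ j → j ≤ g → m j ≤ m (j - 2 * i) + a * i
  step_lt : ∀ j i, T j → 0 < i → 2 * i ≤ j → j ≤ g → m j + 1 ≤ m (j - 2 * i) + a * i

/-- the closed stratum -/
def Closed (p a g : ℕ) (m : ℕ → ℕ) : Set ℤ[X] :=
  {f ∈ weilPolys (p ^ a) g | ∀ j, j ≤ g → (p : ℤ) ^ m j ∣ f.coeff (2 * g - j)}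

/-- the open stratum -/
def Open (p a g : ℕ) (m : ℕ → ℕ) (T : ℕ → Prop) : Set ℤ[X] :=
  {f ∈ Closed p a g m | ∀ j, 1 ≤ j → j ≤ g → T j → ¬ (p : ℤ) ^ (m j + 1) ∣ f.coeff (2 * g - j)}

/-- `S` lies between an open and a closed stratum of Weil polynomials (of degree `2 g`, over the
field with `p ^ a` elements) defined by lower bounds `m j` for the valuations of the coefficients of
index `2 g - j`, exact for the `j` in `T`, such that `t + 2 * m j ≤ a * j` for `1 ≤ j ≤ g`. -/
def IsStratum (p a g t : ℕ) (S : Set ℤ[X]) : Prop :=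
  ∃ (m : ℕ → ℕ) (T : ℕ → Prop), IsData a g m T ∧ (∀ j, 1 ≤ j → j ≤ g → t + 2 * m j ≤ a * j) ∧
    Open p a g m T ⊆ S ∧ S ⊆ Closed p a g m

/-- `j` is a break point of the polygon with first half `b 0, …, b g`. -/
def IsBreak (a g : ℕ) (b : ℕ → ℝ) (j : ℕ) : Prop :=
  (1 ≤ j ∧ j < g ∧ b j - b (j - 1) < b (j + 1) - b j) ∨ (j = g ∧ b g - b (g - 1) < a / 2)

/-- `b 0, …, b g` is the first half of an admissible symmetric Newton polygon: it starts at `0`, is
convex, its slopes are between `0` and `a / 2`, and its break points are integral (the point of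
index `g` is a break point if the last slope is smaller than `a / 2`). -/
structure IsHalfPolygon (a g : ℕ) (b : ℕ → ℝ) : Prop where
  zero : b 0 = 0
  nonneg : 0 ≤ b 1
  convex : ∀ j, 1 ≤ j → j < g → b j - b (j - 1) ≤ b (j + 1) - b j
  slope_le : b g - b (g - 1) ≤ a / 2
  integral : ∀ j, IsBreak a g b j → ∃ n : ℕ, b j = n

/-- The Weil polynomials whose Newton polygon lies on or above the polygon with first half `b`. -/
def aboveNewton (p a g : ℕ) (b : ℕ → ℝ) : Set ℤ[X] :=
  {f ∈ weilPolys (p ^ a) g | ∀ j, j ≤ g → (p : ℤ) ^ ⌈b j⌉₊ ∣ f.coeff (2 * g - j)}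

/-- The Weil polynomials whose Newton polygon is the polygon with first half `b`. -/
def withNewton (p a g : ℕ) (b : ℕ → ℝ) : Set ℤ[X] :=
  {f ∈ aboveNewton p a g b | ∀ j, 1 ≤ j → j ≤ g → IsBreak a g b j →
    ¬ (p : ℤ) ^ (⌈b j⌉₊ + 1) ∣ f.coeff (2 * g - j)}

/-- The Weil polynomials of `p`-rank `r`. -/
def withRank (p a g r : ℕ) : Set ℤ[X] :=
  {f ∈ weilPolys (p ^ a) g | ¬ (p : ℤ) ∣ f.coeff (2 * g - r) ∧
    ∀ j, r < j → j ≤ g → (p : ℤ) ∣ f.coeff (2 * g - j)}

/-- Newton strata and `p`-rank strata are strata. First part: the sets of Weil polynomials whose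
Newton polygon is (or: lies on or above) the polygon with first half `b`; the integer `t` may be any
number with `t + 1 ≤ a * (1 - 2 * λ)`, `a * λ = b 1` the first slope, or any number `t ≤ a` if the
`p`-rank is at least two (`b 2 = 0`), or any number with `t + 2 * ⌈b j⌉ ≤ a * j` for
`1 ≤ j ≤ g`. Second part: the sets of Weil polynomials of `p`-rank `r`. -/
def StrataFacts : Prop :=
  (∀ (p a g t : ℕ) (b : ℕ → ℝ), 0 < a → IsHalfPolygon a g b →
    ((t : ℝ) + 1 ≤ a - 2 * b 1 ∨ (2 ≤ g ∧ b 2 = 0 ∧ t ≤ a) ∨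
      ∀ j, 1 ≤ j → j ≤ g → t + 2 * ⌈b j⌉₊ ≤ a * j) →
    ∀ S : Set ℤ[X], withNewton p a g b ⊆ S → S ⊆ aboveNewton p a g b → IsStratum p a g t S) ∧
  ∀ p a g r t : ℕ, p.Prime → 0 < a → r ≤ g → (1 ≤ r → t ≤ a) → (r < g → t + 2 ≤ a * (r + 1)) →
    IsStratum p a g t (withRank p a g r)

/-- The condition on the degrees: `d ≤ 2`, or `d ≤ g i` and `g i` is three or at least five, for
all `i`. -/
def DimsU {I : Type} (g : I → ℕ) (d : ℕ) : Prop :=
  3 ≤ d → ∀ i, d ≤ g i ∧ (g i = 3 ∨ 5 ≤ g i)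

/-- `d ≥ 3`, and `z` is an algebraic number of degree less than `2 d` such that the square of its
absolute value is rational: for instance an eigenvalue of Frobenius on `H ^ i` of a smooth projective
variety whose `i`-th Betti number is less than `2 d`. -/
def IsSmall (d : ℕ) (z : ℂ) : Prop :=
  3 ≤ d ∧ ∃ (P : ℚ[X]) (Q : ℚ), P ≠ 0 ∧ P.natDegree < 2 * d ∧ aeval z P = 0 ∧
    z * (starRingEnd ℂ) z = Q

/-- The numbers in `S` are not zero and, up to powers, they are products of powers (with integral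
exponents) of rational numbers, of roots of the polynomial `χ₀`, of small numbers (`IsSmall`) and of
`r` numbers `u j`. -/
def IsTame (χ₀ : ℚ[X]) (d r : ℕ) (S : Set ℂ) : Prop :=
  ∃ u : Fin r → ℂ, (∀ j, u j ≠ 0) ∧ ∀ ρ ∈ S, ρ ≠ 0 ∧
    ∃ (N n : ℕ) (y : ℚ) (w : Fin n → ℂ) (e : Fin n → ℤ) (m : Fin r → ℤ), 0 < N ∧
      (∀ k, aeval (w k) χ₀ = 0 ∨ IsSmall d (w k)) ∧
      ρ ^ N = y * (∏ k, w k ^ e k) * ∏ j, u j ^ m j

/-- The set of the roots of any rational polynomial `χ` is independent from the `f i` if, for some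
number `r` less than all the `g i`, it is tame: up to powers and up to a group of rank `r` (modulo
the others), the roots are products of rational numbers, of roots of `χ₀` and of small numbers.

For instance `χ` may be the characteristic polynomial of Frobenius on the cohomology of a product
`Y₀ × … × Y₀ × Y₁ × Y₂` if `χ₀` is the one of `Y₀`, if `Y₁` is a product of varieties with all Betti
numbers less than `2 d` (`d ≥ 3`), and if the eigenvalues of Frobenius of `Y₂` generate a group of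
rank at most `r`. -/
def TameIndep {I : Type} (g : I → ℕ) (d q : ℕ) (χ₀ : ℚ[X]) (f : I → ℤ[X]) : Prop :=
  ∀ r : ℕ, (∀ i, r < g i) → ∀ χ : ℚ[X], χ ≠ 0 → IsTame χ₀ d r {ρ : ℂ | aeval ρ χ = 0} →
    Indep q f {ρ : ℂ | aeval ρ χ = 0}

end Pool.Agent.N205.SG
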