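import Mathlib
import Pool.Agent.N205.SE.Count
import Pool.Agent.N205.NS.Final
import Pool.Agent.N205.SD.Split
import Pool.Agent.N205.SG.Defs

/-!
# The count and the facts, for the definitions of `SG.Defs`
-/

set_option autoImplicit false

namespace Pool.Agent.N205.SG

open Polynomial Pool.Agent.W521.Frob Pool.Agent.N205.SE

theorem isData_iff {a g : ℕ} {m : ℕ → ℕ} {T : ℕ → Prop} : NS.IsData a g m T ↔ IsData a g m T :=
  ⟨fun h => ⟨h.1, h.2, h.3⟩, fun h => ⟨h.1, h.2, h.3⟩⟩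

theorem isStratum_iff {p a g t : ℕ} {S : Set ℤ[X]} :
    IsStratum p a g t S ↔ NS.IsStratum p a g t S := by
  constructor
  · rintro ⟨m, T, h1, h2, h3, h4⟩
    exact ⟨m, T, isData_iff.2 h1, h2, h3, h4⟩
  · rintro ⟨m, T, h1, h2, h3, h4⟩
    exact ⟨m, T, isData_iff.1 h1, h2, h3, h4⟩

theorem isHalfPolygon_iff {a g : ℕ} {b : ℕ → ℝ} : NS.IsHalfPolygon a g b ↔ IsHalfPolygon a g b :=
  ⟨fun h => ⟨h.1, h.2, h.3, h.4, h.5⟩, fun h => ⟨h.1, h.2, h.3, h.4, h.5⟩⟩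

theorem strataFacts : StrataFacts := by
  obtain ⟨h1, h2⟩ := NS.strataFacts
  refine ⟨fun p a g t b ha hb ht S hS1 hS2 => ?_, fun p a g r t hp ha hr h3 h4 => ?_⟩
  · exact isStratum_iff.2 (h1 p a g t b ha (isHalfPolygon_iff.2 hb) ht S hS1 hS2)
  · exact isStratum_iff.2 (h2 p a g r t hp ha hr h3 h4)

/-- tame sets have small rank over the field `lowField E d` -/
theorem rank_of_tame {χ₀ : ℚ[X]} {E : IntermediateField ℚ ℂ} (hE : ∀ z : ℂ, aeval z χ₀ = 0 → z ∈ E)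
    {d r : ℕ} {S : Set ℂ} (h : IsTame χ₀ d r S) : W484.TB.RankLEOver (SD.lowField E d) r S := by
  obtain ⟨u, hu, hS⟩ := h
  refine ⟨u, hu, fun ρ hρ => ?_⟩
  obtain ⟨hρ0, N, n, y, w, e, m, hN, hw, heq⟩ := hS ρ hρ
  have hmem : (y : ℂ) * (∏ k, w k ^ e k) ∈ SD.lowField E d := by
    refine mul_mem ?_ ?_
    · exact (SD.lowField E d).algebraMap_mem y
    · refine prod_mem fun k _ => zpow_mem ?_ _
      rcases hw k with h1 | ⟨hd, P, Q, hP, hPd, hz, hQ⟩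
      · exact SD.le_lowField E d (hE _ h1)
      · exact SD.weil_mem hd P Q _ hP hPd hz hQ
  refine ⟨N, _, m, hN, hmem, ?_, heq⟩
  intro h0
  rw [h0, zero_mul] at heq
  exact pow_ne_zero N hρ0 heq

theorem tame_of_criterion {I : Type} {g : I → ℕ} {q d : ℕ} {f : I → ℤ[X]} {χ₀ : ℚ[X]}
    {E : IntermediateField ℚ ℂ} (hEn : Normal ℚ E) (hE : ∀ z : ℂ, aeval z χ₀ = 0 → z ∈ E)
    (h1 : SE.Criterion g q f) (h2 : SD.NoRoot f (SD.lowField E d)) : TameIndep g d q χ₀ f := by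
  intro r hr χ hχ ht
  exact h1 _ (SD.lowFacts.1 E d hEn).1 h2 r hr χ hχ (rank_of_tame hE ht)

/-- **The count.** -/
theorem indep_unif {I : Type} [Fintype I] (g : I → ℕ) (hg : ∀ i, 0 < g i) (d : ℕ)
    (hd : DimsU g d) (B : ℕ) (P : ℕ → (I → ℤ[X]) → Prop)
    (hP : ∀ q : ℕ, IsPrimePow q → ∀ x : (Σ i, Fin (g i)) → ℤ, W521.Bad.Good g q x →
      P q (fun i => weil q (W521.Density.polys g x i))) :
    ∃ C : ℝ, ∀ p a t : ℕ, p.Prime → 0 < a → 0 < t → ∀ S : I → Set ℤ[X],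
      (∀ i, IsStratum p a (g i) t (S i)) →
      (∀ i, (S i).Finite ∧ (4 ^ g i ≤ p ^ t → (S i).Nonempty)) ∧
      ({f : I → ℤ[X] | (∀ i, f i ∈ S i) ∧ ¬ P (p ^ a) f}.ncard : ℝ) ≤
        C * (Real.log ((p ^ t : ℕ) : ℝ) * ((p ^ t : ℕ) : ℝ) ^ (-(1 / 6) : ℝ)) *
          ∏ i, ((S i).ncard : ℝ) ∧
      ∀ χ₀ : ℚ[X], χ₀ ≠ 0 → χ₀.natDegree ≤ B →
        ({f : I → ℤ[X] | (∀ i, f i ∈ S i) ∧ ¬ TameIndep g d (p ^ a) χ₀ f}.ncard : ℝ) ≤
          C * (Real.log ((p ^ t : ℕ) : ℝ) * ((p ^ t : ℕ) : ℝ) ^ (-(1 / 6) : ℝ)) *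
            ∏ i, ((S i).ncard : ℝ) := by
  obtain ⟨C, hC⟩ := SE.indep_unif g hg d hd B.factorial P hP
  refine ⟨2 * |C|, fun p a t hp ha ht S hS => ?_⟩
  obtain ⟨h1, h2, h3⟩ := hC p a t hp ha ht S fun i => isStratum_iff.1 (hS i)
  set R : ℝ := (Real.log ((p ^ t : ℕ) : ℝ) * ((p ^ t : ℕ) : ℝ) ^ (-(1 / 6) : ℝ)) *
    ∏ i, ((S i).ncard : ℝ) with hR
  have hR0 : 0 ≤ R := by
    refine mul_nonneg (mul_nonneg (Real.log_natCast_nonneg _) ?_) ?_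
    · exact Real.rpow_nonneg (Nat.cast_nonneg _) _
    · exact Finset.prod_nonneg fun i _ => Nat.cast_nonneg _
  have hfin : {f : I → ℤ[X] | ∀ i, f i ∈ S i}.Finite := Set.Finite.pi' fun i => (h1 i).1
  have hsub : ∀ Q : (I → ℤ[X]) → Prop, {f : I → ℤ[X] | (∀ i, f i ∈ S i) ∧ Q f}.Finite := fun Q =>
    hfin.subset fun f hf => hf.1
  have hCR : C * R ≤ |C| * R := mul_le_mul_of_nonneg_right (le_abs_self C) hR0
  have h2' : ({f : I → ℤ[X] | (∀ i, f i ∈ S i) ∧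
      ¬ (P (p ^ a) f ∧ SE.Criterion g (p ^ a) f)}.ncard : ℝ) ≤ |C| * R := by
    refine h2.trans ?_
    rw [mul_assoc]
    exact hCR
  refine ⟨h1, ?_, fun χ₀ h0 hB => ?_⟩
  · rw [mul_assoc]
    refine le_trans ?_ (h2'.trans (by nlinarith [abs_nonneg C]))
    have hs : {f : I → ℤ[X] | (∀ i, f i ∈ S i) ∧ ¬ P (p ^ a) f} ⊆
        {f : I → ℤ[X] | (∀ i, f i ∈ S i) ∧ ¬ (P (p ^ a) f ∧ SE.Criterion g (p ^ a) f)} :=
      fun f hf => ⟨hf.1, fun h => hf.2 h.1⟩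
    exact_mod_cast Set.ncard_le_ncard hs (hsub _)
  · obtain ⟨E, hEn, hEf, hEd, hE⟩ := SD.splitFact χ₀ h0
    have h3' := h3 E hEn hEf (hEd.trans (Nat.factorial_le hB))
    rw [mul_assoc]
    have h4 : ({f : I → ℤ[X] | (∀ i, f i ∈ S i) ∧ ¬ SD.NoRoot f (SD.lowField E d)}.ncard : ℝ) ≤
        |C| * R := by
      refine h3'.trans ?_
      rw [mul_assoc]
      exact hCR
    have hss : {f : I → ℤ[X] | (∀ i, f i ∈ S i) ∧ ¬ TameIndep g d (p ^ a) χ₀ f} ⊆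
        {f : I → ℤ[X] | (∀ i, f i ∈ S i) ∧ ¬ (P (p ^ a) f ∧ SE.Criterion g (p ^ a) f)} ∪
        {f : I → ℤ[X] | (∀ i, f i ∈ S i) ∧ ¬ SD.NoRoot f (SD.lowField E d)} := by
      rintro f ⟨hf1, hf2⟩
      by_cases hc : SE.Criterion g (p ^ a) f
      · right
        refine ⟨hf1, fun hn => hf2 ?_⟩
        exact tame_of_criterion hEn hE hc hn
      · left
        exact ⟨hf1, fun h => hc h.2⟩
    have h5 : ({f : I → ℤ[X] | (∀ i, f i ∈ S i) ∧ ¬ TameIndep g d (p ^ a) χ₀ f}.ncard : ℝ) ≤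
        ({f : I → ℤ[X] | (∀ i, f i ∈ S i) ∧
          ¬ (P (p ^ a) f ∧ SE.Criterion g (p ^ a) f)}.ncard : ℝ) +
        ({f : I → ℤ[X] | (∀ i, f i ∈ S i) ∧ ¬ SD.NoRoot f (SD.lowField E d)}.ncard : ℝ) := by
      exact_mod_cast (Set.ncard_le_ncard hss ((hsub _).union (hsub _))).trans
        (Set.ncard_union_le _ _)
    linarith

end Pool.Agent.N205.SG
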